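import Pool.Agent.H948.SF.Stm

set_option autoImplicit false
set_option linter.all false

namespace Pool.Agent.H407.SF

open MeasureTheory ProbabilityTheory Set Filter
open scoped ENNReal NNReal Nat Topology
open Pool.Agent.H948.SF

section

variable {V : Type}

/-- references to marks -/
abbrev Ref (V : Type) : Type := Option (V × ℤ × ℕ)

/-- the time of the node `(y, r)` -/
noncomputable def tm (s : ℝ) (ω : Env (Lab V)) (y : V) : Ref V → ℝ
  | none => s
  | some (u, k, l) => (k : ℝ) + ((ω (Sum.inl s(u, y), k)).2 l : ℝ)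

/-- no recovery of `y` in `(a, b]` -/
def NoRec (ω : Env (Lab V)) (y : V) (a b : ℝ) : Prop :=
  ∀ (k : ℤ) (l : ℕ), l < (ω (Sum.inr y, k)).1 →
    ¬ (a < (k : ℝ) + ((ω (Sum.inr y, k)).2 l : ℝ) ∧ (k : ℝ) + ((ω (Sum.inr y, k)).2 l : ℝ) ≤ b)

/-- the node `(y, r)` can be reached with `m` crossings -/
def Reach (G : SimpleGraph V) (x : V) (s : ℝ) (ω : Env (Lab V)) : ℕ → V → Ref V → Prop
  | 0, y, r => y = x ∧ r = none
  | _ + 1, _, none => False
  | m + 1, z, some (y, k, l) => G.Adj y z ∧ l < (ω (Sum.inl s(y, z), k)).1 ∧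
      s < tm s ω z (some (y, k, l)) ∧ ∃ r' : Ref V, Reach G x s ω m y r' ∧
        tm s ω y r' ≤ tm s ω z (some (y, k, l)) ∧
        NoRec ω y (tm s ω y r') (tm s ω z (some (y, k, l)))

theorem noRec_iff (ω : Env (Lab V)) (y : V) (a b : ℝ) :
    NoRec ω y a b ↔ ∀ r, a < r → r ≤ b → r ∉ marks ω (Sum.inr y) := by
  constructor
  · rintro h r h1 h2 ⟨k, l, hl, rfl⟩
    exact h k l hl ⟨h1, h2⟩
  · intro h k l hl hh
    exact h _ hh.1 hh.2 ⟨k, l, hl, rfl⟩

theorem reach_path (G : SimpleGraph V) (x : V) (s : ℝ) (ω : Env (Lab V)) (m : ℕ) :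
    ∀ (y : V) (r : Ref V), Reach G x s ω m y r → PE G ω x s y (tm s ω y r) := by
  induction m with
  | zero =>
    rintro y r ⟨rfl, rfl⟩
    exact Path.start
  | succ m ih =>
    rintro z (_ | ⟨y, k, l⟩) h
    · exact h.elim
    · obtain ⟨hadj, hl, hs, r', hr', hle, hno⟩ := h
      have h1 : PE G ω x s y (tm s ω y r') := ih y r' hr'
      have h2 : PE G ω x s y (tm s ω z (some (y, k, l))) :=
        Path.stay h1 hle ((noRec_iff ω y _ _).1 hno)
      exact Path.cross h2 hadj hs ⟨k, l, hl, rfl⟩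

theorem path_iff (G : SimpleGraph V) (x y : V) (s t : ℝ) (ω : Env (Lab V)) :
    PE G ω x s y t ↔ ∃ (m : ℕ) (r : Ref V), Reach G x s ω m y r ∧ tm s ω y r ≤ t ∧
      NoRec ω y (tm s ω y r) t := by
  constructor
  · intro h
    unfold PE at h
    induction h with
    | start =>
      refine ⟨0, none, ⟨rfl, rfl⟩, le_rfl, ?_⟩
      rw [noRec_iff]
      intro r h1 h2
      exact absurd (lt_of_lt_of_le h1 h2) (lt_irrefl _)
    | stay h htu hno ih =>
      obtain ⟨m, r, h1, h2, h3⟩ := ih
      refine ⟨m, r, h1, h2.trans htu, ?_⟩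
      rw [noRec_iff] at h3 ⊢
      intro q hq1 hq2
      rcases le_or_gt q _ with h4 | h4
      · exact h3 q hq1 h4
      · exact hno q h4 hq2
    | @cross y z t h hadj hst ht ih =>
      obtain ⟨m, r, h1, h2, h3⟩ := ih
      obtain ⟨k, l, hl, e⟩ := ht
      have e' : tm s ω z (some (y, k, l)) = t := e.symm
      refine ⟨m + 1, some (y, k, l), ⟨hadj, hl, ?_, r, h1, ?_, ?_⟩, ?_, ?_⟩
      · rw [e']; exact hst
      · rw [e']; exact h2
      · rw [e']; exact h3
      · rw [e']
      · rw [e', noRec_iff]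
        intro r h1 h2
        exact absurd (lt_of_lt_of_le h1 h2) (lt_irrefl _)
  · rintro ⟨m, r, h1, h2, h3⟩
    exact Path.stay (reach_path G x s ω m y r h1) h2 ((noRec_iff ω y _ _).1 h3)

theorem meas_num (i : Lab V × ℤ) : Measurable fun ω : Env (Lab V) => (ω i).1 :=
  measurable_fst.comp (measurable_pi_apply i)

theorem meas_pos (i : Lab V × ℤ) (k : ℤ) (l : ℕ) :
    Measurable fun ω : Env (Lab V) => (k : ℝ) + ((ω i).2 l : ℝ) := by
  have h1 : Measurable fun ω : Env (Lab V) => ((ω i).2 l : U1) :=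
    (measurable_pi_apply l).comp (measurable_snd.comp (measurable_pi_apply i))
  exact (measurable_subtype_coe.comp h1).const_add _

theorem meas_lt (i : Lab V × ℤ) (l : ℕ) : MeasurableSet {ω : Env (Lab V) | l < (ω i).1} :=
  measurableSet_lt measurable_const (meas_num i)

theorem meas_tm (s : ℝ) (y : V) (r : Ref V) : Measurable fun ω : Env (Lab V) => tm s ω y r := by
  rcases r with _ | ⟨u, k, l⟩
  · exact measurable_const
  · exact meas_pos _ k l

theorem meas_noRec (y : V) {a b : Env (Lab V) → ℝ} (ha : Measurable a) (hb : Measurable b) :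
    MeasurableSet {ω : Env (Lab V) | NoRec ω y (a ω) (b ω)} := by
  unfold NoRec
  simp only [Set.setOf_forall]
  refine MeasurableSet.iInter fun k => MeasurableSet.iInter fun l => ?_
  have h1 := meas_lt (V := V) (Sum.inr y, k) l
  have h2 : MeasurableSet {ω : Env (Lab V) | a ω < (k : ℝ) + ((ω (Sum.inr y, k)).2 l : ℝ)} :=
    measurableSet_lt ha (meas_pos _ k l)
  have h3 : MeasurableSet {ω : Env (Lab V) | (k : ℝ) + ((ω (Sum.inr y, k)).2 l : ℝ) ≤ b ω} :=
    measurableSet_le (meas_pos _ k l) hb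
  have e : (⋂ (_ : l < (0 : ℕ)), (∅ : Set (Env (Lab V)))) = Set.univ := by simp
  have h4 : {ω : Env (Lab V) | l < (ω (Sum.inr y, k)).1 →
      ¬ (a ω < (k : ℝ) + ((ω (Sum.inr y, k)).2 l : ℝ) ∧
        (k : ℝ) + ((ω (Sum.inr y, k)).2 l : ℝ) ≤ b ω)} =
      ({ω : Env (Lab V) | l < (ω (Sum.inr y, k)).1} ∩
        ({ω : Env (Lab V) | a ω < (k : ℝ) + ((ω (Sum.inr y, k)).2 l : ℝ)} ∩
        {ω : Env (Lab V) | (k : ℝ) + ((ω (Sum.inr y, k)).2 l : ℝ) ≤ b ω}))ᶜ := by
    ext ω
    simp only [Set.mem_setOf_eq, Set.mem_compl_iff, Set.mem_inter_iff]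
    tauto
  have h5 := (h1.inter (h2.inter h3)).compl
  rw [← h4] at h5
  exact h5

theorem meas_reach [Countable V] (G : SimpleGraph V) (x : V) (s : ℝ) (m : ℕ) :
    ∀ (y : V) (r : Ref V), MeasurableSet {ω : Env (Lab V) | Reach G x s ω m y r} := by
  induction m with
  | zero =>
    intro y r
    exact MeasurableSet.const _
  | succ m ih =>
    rintro z (_ | ⟨y, k, l⟩)
    · exact MeasurableSet.const _
    · have h1 : MeasurableSet {ω : Env (Lab V) | G.Adj y z} := MeasurableSet.const _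
      have h2 := meas_lt (V := V) (Sum.inl s(y, z), k) l
      have h3 : MeasurableSet {ω : Env (Lab V) | s < tm s ω z (some (y, k, l))} :=
        measurableSet_lt measurable_const (meas_tm s z _)
      have h4 : MeasurableSet {ω : Env (Lab V) | ∃ r' : Ref V, Reach G x s ω m y r' ∧
          tm s ω y r' ≤ tm s ω z (some (y, k, l)) ∧
          NoRec ω y (tm s ω y r') (tm s ω z (some (y, k, l)))} := by
        simp only [Set.setOf_exists]
        refine MeasurableSet.iUnion fun r' => ?_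
        exact (ih y r').inter ((measurableSet_le (meas_tm s y r') (meas_tm s z _)).inter
          (meas_noRec y (meas_tm s y r') (meas_tm s z _)))
      exact h1.inter (h2.inter (h3.inter h4))

end

theorem s_meas : S_MEAS := by
  intro V _ G x y s t
  simp only [path_iff]
  simp only [Set.setOf_exists]
  refine MeasurableSet.iUnion fun m => MeasurableSet.iUnion fun r => ?_
  exact (meas_reach G x s m y r).inter ((measurableSet_le (meas_tm s y r) measurable_const).inter
    (meas_noRec y (meas_tm s y r) measurable_const))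

end Pool.Agent.H407.SF
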